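import Mathlib

/-!
# KI-EX: coarse connectivity of the closed region (helper499)
-/

set_option autoImplicit false

namespace Pool.Agent.W499.KI
namespace TEX

/-- a stub, radially unbounded -/
def Sb (k : ℕ) (c N x y : ℤ) : Prop :=
  (k = 0 ∧ x = c ∧ N ≤ y) ∨ (k = 1 ∧ y = c ∧ N ≤ x) ∨ (k = 2 ∧ x = c ∧ y ≤ -N - 1) ∨
  (k = 3 ∧ y = c ∧ x ≤ -N - 1)

/-- the ring -/
def Rg (L x y : ℤ) : Prop :=
  (y = L - 3 ∧ -L + 8 ≤ x ∧ x ≤ L - 3) ∨ (x = L - 3 ∧ -L + 2 ≤ y ∧ y ≤ L - 3) ∨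
  (y = -L + 2 ∧ -L + 2 ≤ x ∧ x ≤ L - 3) ∨ (x = -L + 2 ∧ -L + 2 ≤ y ∧ y ≤ L - 9)

/-- free squares -/
def Fz (ki ko : ℕ) (ci co N L x y : ℤ) : Prop :=
  (-L ≤ x ∧ x < L ∧ -L ≤ y ∧ y < L) ∧ ¬ (-N ≤ x ∧ x < N ∧ -N ≤ y ∧ y < N) ∧ ¬ Rg L x y ∧
  ¬ (Sb ki ci N x y ∧ -L + 2 ≤ x ∧ x ≤ L - 3 ∧ -L + 2 ≤ y ∧ y ≤ L - 3) ∧ ¬ Sb ko co (L - 3) x y

/-- admissible parameters -/
def Ok (ki ko : ℕ) (ci co N L : ℤ) : Prop :=
  (ki < 4 ∧ -N + 6 ≤ ci ∧ ci + 7 ≤ N) ∧ (ko < 4 ∧ -L + 8 ≤ co ∧ co + 9 ≤ L) ∧ 16 ≤ N ∧ 3 * N ≤ L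

/-- not cut by the zipper -/
def Uc (x y : ℤ) : Prop := x + y ≠ -1 ∨ 1 ≤ x - y

/-- free squares which are not cut by the zipper -/
def S (ki ko : ℕ) (ci co N L x y : ℤ) : Prop := Fz ki ko ci co N L x y ∧ Uc x y

variable {ki ko : ℕ} {ci co N L : ℤ}

/-- inside of the ring -/
theorem mkI (h : Ok ki ko ci co N L) {x y : ℤ} (h1 : -L + 3 ≤ x ∧ x ≤ L - 4 ∧ -L + 3 ≤ y ∧ y ≤ L - 4)
    (h2 : ¬ (-N ≤ x ∧ x < N ∧ -N ≤ y ∧ y < N)) (h3 : ¬ Sb ki ci N x y) (h4 : Uc x y) :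
    S ki ko ci co N L x y := by
  obtain ⟨-, ⟨-, k2, k3⟩, k4, k5⟩ := h
  obtain ⟨a1, a2, a3, a4⟩ := h1
  refine ⟨⟨by omega, h2, ?_, fun h => h3 h.1, ?_⟩, h4⟩
  · unfold Rg; omega
  · unfold Sb; omega

/-- the channel -/
theorem mkO (h : Ok ki ko ci co N L) {x y : ℤ} (h1 : -L ≤ x ∧ x < L ∧ -L ≤ y ∧ y < L)
    (h2 : x ≤ -L + 1 ∨ L - 2 ≤ x ∨ y ≤ -L + 1 ∨ L - 2 ≤ y) (h3 : ¬ Sb ko co (L - 3) x y)
    (h4 : Uc x y) : S ki ko ci co N L x y := by
  obtain ⟨⟨-, j2, j3⟩, ⟨-, k2, k3⟩, k4, k5⟩ := h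
  refine ⟨⟨h1, by omega, ?_, ?_, h3⟩, h4⟩
  · unfold Rg; omega
  · omega

/-- the gap -/
theorem mkG (h : Ok ki ko ci co N L) {x y : ℤ}
    (h1 : -L ≤ x ∧ x ≤ -L + 7 ∧ L - 8 ≤ y ∧ y ≤ L - 1) (h4 : Uc x y) :
    S ki ko ci co N L x y := by
  obtain ⟨⟨-, j2, j3⟩, ⟨-, k2, k3⟩, k4, k5⟩ := h
  refine ⟨⟨by omega, by omega, ?_, ?_, ?_⟩, h4⟩
  · unfold Rg; omega
  · unfold Sb; omega
  · unfold Sb; omega

/-- adjacent free squares -/
def Ad (ki ko : ℕ) (ci co N L : ℤ) (a b : ℤ × ℤ) : Prop :=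
  S ki ko ci co N L a.1 a.2 ∧ S ki ko ci co N L b.1 b.2 ∧ (b = (a.1 + 1, a.2) ∨ b = (a.1, a.2 + 1))

def CR (ki ko : ℕ) (ci co N L : ℤ) : ℤ × ℤ → ℤ × ℤ → Prop :=
  Relation.EqvGen (Ad ki ko ci co N L)

theorem CR.rf (a : ℤ × ℤ) : CR ki ko ci co N L a a := Relation.EqvGen.refl _

theorem CR.tr {a b d : ℤ × ℤ} (h1 : CR ki ko ci co N L a b) (h2 : CR ki ko ci co N L b d) :
    CR ki ko ci co N L a d := Relation.EqvGen.trans _ _ _ h1 h2

theorem CR.sy {a b : ℤ × ℤ} (h1 : CR ki ko ci co N L a b) : CR ki ko ci co N L b a :=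
  Relation.EqvGen.symm _ _ h1

theorem hl (y a : ℤ) (m : ℕ) (h : ∀ i : ℤ, 0 ≤ i → i ≤ m → S ki ko ci co N L (a + i) y) :
    CR ki ko ci co N L (a, y) (a + m, y) := by
  induction m with
  | zero => simpa using CR.rf _
  | succ m ih =>
    have h1 := ih fun i hi hi2 => h i hi (by push_cast; omega)
    refine h1.tr (Relation.EqvGen.rel _ _ ⟨?_, ?_, Or.inl ?_⟩)
    · exact h m (by omega) (by push_cast; omega)
    · have := h (m + 1 : ℕ) (by omega) (le_refl _)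
      exact this
    · push_cast; simp only [Prod.mk.injEq, and_true]; ring

theorem vl (x b : ℤ) (m : ℕ) (h : ∀ i : ℤ, 0 ≤ i → i ≤ m → S ki ko ci co N L x (b + i)) :
    CR ki ko ci co N L (x, b) (x, b + m) := by
  induction m with
  | zero => simpa using CR.rf _
  | succ m ih =>
    have h1 := ih fun i hi hi2 => h i hi (by push_cast; omega)
    refine h1.tr (Relation.EqvGen.rel _ _ ⟨?_, ?_, Or.inr ?_⟩)
    · exact h m (by omega) (by push_cast; omega)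
    · have := h (m + 1 : ℕ) (by omega) (le_refl _)
      exact this
    · push_cast; simp only [Prod.mk.injEq, true_and]; ring

/-- horizontal line -/
theorem hline (y a b : ℤ)
    (h : ∀ x, (a ≤ x ∧ x ≤ b) ∨ (b ≤ x ∧ x ≤ a) → S ki ko ci co N L x y) :
    CR ki ko ci co N L (a, y) (b, y) := by
  rcases le_total a b with hab | hab
  · have h1 := hl (ki := ki) (ko := ko) (ci := ci) (co := co) (N := N) (L := L) y a (b - a).toNat
      (fun i h0 h1 => h _ (by omega))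
    have e : a + ((b - a).toNat : ℤ) = b := by omega
    rwa [e] at h1
  · have h1 := hl (ki := ki) (ko := ko) (ci := ci) (co := co) (N := N) (L := L) y b (a - b).toNat
      (fun i h0 h1 => h _ (by omega))
    have e : b + ((a - b).toNat : ℤ) = a := by omega
    rw [e] at h1
    exact h1.sy

/-- vertical line -/
theorem vline (x a b : ℤ)
    (h : ∀ y, (a ≤ y ∧ y ≤ b) ∨ (b ≤ y ∧ y ≤ a) → S ki ko ci co N L x y) :
    CR ki ko ci co N L (x, a) (x, b) := by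
  rcases le_total a b with hab | hab
  · have h1 := vl (ki := ki) (ko := ko) (ci := ci) (co := co) (N := N) (L := L) x a (b - a).toNat
      (fun i h0 h1 => h _ (by omega))
    have e : a + ((b - a).toNat : ℤ) = b := by omega
    rwa [e] at h1
  · have h1 := vl (ki := ki) (ko := ko) (ci := ci) (co := co) (N := N) (L := L) x b (a - b).toNat
      (fun i h0 h1 => h _ (by omega))
    have e : b + ((a - b).toNat : ℤ) = a := by omega
    rw [e] at h1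
    exact h1.sy

/-- the frame of the box `[-W, W)²`, clockwise from the upper left corner, corners twice -/
def fr (W s : ℤ) : ℤ × ℤ :=
  if s < 2 * W then (-W + s, W - 1) else if s < 4 * W then (W - 1, W - 1 - (s - 2 * W))
  else if s < 6 * W then (W - 1 - (s - 4 * W), -W) else (-W, -W + (s - 6 * W))

/-- position of a cell -/
def cp (k : ℕ) (c W : ℤ) : ℤ :=
  if k = 0 then c + W else if k = 1 then 2 * W + (W - 1 - c)
  else if k = 2 then 4 * W + (W - 1 - c) else 6 * W + (c + W)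

/-- neighbours on the frame -/
theorem fr_succ {W s : ℤ} (_h0 : 0 ≤ s) (_h1 : s + 1 < 8 * W) :
    fr W (s + 1) = fr W s ∨ fr W (s + 1) = ((fr W s).1 + 1, (fr W s).2) ∨
      fr W (s + 1) = ((fr W s).1, (fr W s).2 + 1) ∨
      fr W s = ((fr W (s + 1)).1 + 1, (fr W (s + 1)).2) ∨
      fr W s = ((fr W (s + 1)).1, (fr W (s + 1)).2 + 1) := by
  unfold fr
  split_ifs <;> simp only [Prod.mk.injEq, and_true, true_and] <;> omega

theorem walk0 {W s : ℤ} (m : ℕ) (h0 : 0 ≤ s) (h1 : s + m < 8 * W)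
    (h : ∀ i : ℤ, s ≤ i → i ≤ s + m → S ki ko ci co N L (fr W i).1 (fr W i).2) :
    CR ki ko ci co N L (fr W s) (fr W (s + m)) := by
  induction m with
  | zero => simpa using CR.rf _
  | succ m ih =>
    push_cast at h1 h ⊢
    have h2 := ih (by omega) (fun i hi hi2 => h i hi (by omega))
    refine h2.tr ?_
    have e : s + ((m : ℤ) + 1) = s + m + 1 := by ring
    rw [e]
    have a1 := h (s + m) (by omega) (by omega)
    have a2 := h (s + m + 1) (by omega) (by omega)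
    rcases fr_succ (W := W) (s := s + m) (by omega) (by omega) with g | g | g | g | g
    · rw [g]; exact CR.rf _
    · exact Relation.EqvGen.rel _ _ ⟨a1, a2, Or.inl g⟩
    · exact Relation.EqvGen.rel _ _ ⟨a1, a2, Or.inr g⟩
    · exact CR.sy (Relation.EqvGen.rel _ _ ⟨a2, a1, Or.inl g⟩)
    · exact CR.sy (Relation.EqvGen.rel _ _ ⟨a2, a1, Or.inr g⟩)

/-- a walk along the frame -/
theorem walk {W s t : ℤ} (h0 : 0 ≤ s) (hst : s ≤ t) (h1 : t < 8 * W)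
    (h : ∀ i : ℤ, s ≤ i → i ≤ t → S ki ko ci co N L (fr W i).1 (fr W i).2) :
    CR ki ko ci co N L (fr W s) (fr W t) := by
  have := walk0 (ki := ki) (ko := ko) (ci := ci) (co := co) (N := N) (L := L) (W := W) (s := s)
    (t - s).toNat h0 (by omega) (fun i hi hi2 => h i hi (by omega))
  have e : s + ((t - s).toNat : ℤ) = t := by omega
  rwa [e] at this

theorem fr_uc {W s : ℤ} (_hW : 8 ≤ W) (h0 : 1 ≤ s) (h1 : s ≤ 8 * W - 2) :
    Uc (fr W s).1 (fr W s).2 := by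
  unfold fr Uc
  split_ifs <;> simp only <;> omega

/-- the inner frame -/
theorem frI (h : Ok ki ko ci co N L) {s : ℤ} (h0 : 1 ≤ s) (h1 : s ≤ 8 * (L - 3) - 2)
    (h2 : s ≠ cp ki ci (L - 3)) :
    S ki ko ci co N L (fr (L - 3) s).1 (fr (L - 3) s).2 := by
  have h' := h
  obtain ⟨⟨j1, j2, j3⟩, ⟨-, k2, k3⟩, k4, k5⟩ := h'
  refine mkI h ?_ ?_ ?_ (fr_uc (by omega) h0 h1)
  · unfold fr; split_ifs <;> simp only <;> omega
  · unfold fr; split_ifs <;> simp only <;> omega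
  · unfold cp at h2
    unfold fr Sb
    split_ifs at h2 ⊢ <;> simp only <;> omega

/-- the outer frame -/
theorem frO (h : Ok ki ko ci co N L) {s : ℤ} (h0 : 1 ≤ s) (h1 : s ≤ 8 * L - 2)
    (h2 : s ≠ cp ko co L) : S ki ko ci co N L (fr L s).1 (fr L s).2 := by
  have h' := h
  obtain ⟨⟨-, j2, j3⟩, ⟨k1, k2, k3⟩, k4, k5⟩ := h'
  refine mkO h ?_ ?_ ?_ (fr_uc (by omega) h0 h1)
  · unfold fr; split_ifs <;> simp only <;> omega
  · unfold fr; split_ifs <;> simp only <;> omega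
  · unfold cp at h2
    unfold fr Sb
    split_ifs at h2 ⊢ <;> simp only <;> omega

theorem oA (h : Ok ki ko ci co N L) {s : ℤ} (h0 : 1 ≤ s) (h2 : s < cp ko co L) :
    CR ki ko ci co N L (fr L s) (fr L 1) := by
  have h3 : cp ko co L ≤ 8 * L - 2 := by
    obtain ⟨⟨-, j2, j3⟩, ⟨k1, k2, k3⟩, k4, k5⟩ := h
    unfold cp; split_ifs <;> omega
  exact (walk (by omega) h0 (by omega) fun i hi hi2 => frO h hi (by omega) (by omega)).sy

theorem oB (h : Ok ki ko ci co N L) {s : ℤ} (h0 : s ≤ 8 * L - 2) (h2 : cp ko co L < s) :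
    CR ki ko ci co N L (fr L s) (fr L (8 * L - 2)) := by
  have h3 : 1 ≤ cp ko co L := by
    obtain ⟨⟨-, j2, j3⟩, ⟨k1, k2, k3⟩, k4, k5⟩ := h
    unfold cp; split_ifs <;> omega
  exact (walk (by omega) h0 (by omega) fun i hi hi2 => frO h (by omega) (by omega) (by omega))

theorem iA (h : Ok ki ko ci co N L) {s : ℤ} (h0 : 1 ≤ s) (h2 : s < cp ki ci (L - 3)) :
    CR ki ko ci co N L (fr (L - 3) s) (fr (L - 3) 1) := by
  have h3 : cp ki ci (L - 3) ≤ 8 * (L - 3) - 2 := by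
    obtain ⟨⟨-, j2, j3⟩, ⟨k1, k2, k3⟩, k4, k5⟩ := h
    unfold cp; split_ifs <;> omega
  exact (walk (by omega) h0 (by omega) fun i hi hi2 => frI h hi (by omega) (by omega)).sy

theorem iB (h : Ok ki ko ci co N L) {s : ℤ} (h0 : s ≤ 8 * (L - 3) - 2)
    (h2 : cp ki ci (L - 3) < s) :
    CR ki ko ci co N L (fr (L - 3) s) (fr (L - 3) (8 * (L - 3) - 2)) := by
  have h3 : 1 ≤ cp ki ci (L - 3) := by
    obtain ⟨⟨-, j2, j3⟩, ⟨k1, k2, k3⟩, k4, k5⟩ := h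
    unfold cp; split_ifs <;> omega
  exact (walk (by omega) h0 (by omega) fun i hi hi2 => frI h (by omega) (by omega) (by omega))

theorem fr1 (hL : 1 ≤ L) : fr L 1 = (-L + 1, L - 1) := by
  unfold fr
  rw [if_pos (by omega)]

theorem fr2 (hL : 1 ≤ L) : fr L (8 * L - 2) = (-L, L - 2) := by
  unfold fr
  rw [if_neg (by omega), if_neg (by omega), if_neg (by omega)]
  ext <;> simp only; omega

/-- the joins through the gap -/
theorem jA (h : Ok ki ko ci co N L) :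
    CR ki ko ci co N L (fr (L - 3) 1) (-L + 1, L - 1) := by
  have h' := h
  obtain ⟨⟨-, j2, j3⟩, ⟨-, k2, k3⟩, k4, k5⟩ := h'
  rw [fr1 (by omega)]
  have h1 : CR ki ko ci co N L (-(L - 3) + 1, L - 3 - 1) (-(L - 3) + 1, L - 1) :=
    vline _ _ _ fun y hy => mkG h (by omega) (by unfold Uc; omega)
  exact h1.tr (hline _ _ _ fun x hx => mkG h (by omega) (by unfold Uc; omega))

theorem jB (h : Ok ki ko ci co N L) :
    CR ki ko ci co N L (fr (L - 3) (8 * (L - 3) - 2)) (-L, L - 2) := by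
  have h' := h
  obtain ⟨⟨-, j2, j3⟩, ⟨-, k2, k3⟩, k4, k5⟩ := h'
  rw [fr2 (by omega)]
  have h1 : CR ki ko ci co N L (-(L - 3), L - 3 - 2) (-L, L - 3 - 2) :=
    hline _ _ _ fun y hy => mkG h (by omega) (by unfold Uc; omega)
  exact h1.tr (vline _ _ _ fun x hx => mkG h (by omega) (by unfold Uc; omega))

/-- squares on the frame -/
theorem on_fr {W x y : ℤ} (hW : 1 ≤ W) (h1 : -W ≤ x ∧ x < W ∧ -W ≤ y ∧ y < W)
    (h2 : x = -W ∨ x = W - 1 ∨ y = -W ∨ y = W - 1) (h3 : ¬ (x = -W ∧ y = W - 1)) :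
    ∃ s, 1 ≤ s ∧ s ≤ 8 * W - 2 ∧ fr W s = (x, y) := by
  by_cases g1 : y = W - 1
  · refine ⟨x + W, by omega, by omega, ?_⟩
    unfold fr
    rw [if_pos (by omega)]
    ext <;> simp only <;> omega
  by_cases g2 : x = W - 1
  · refine ⟨2 * W + (W - 1 - y), by omega, by omega, ?_⟩
    unfold fr
    rw [if_neg (by omega), if_pos (by omega)]
    ext <;> simp only <;> omega
  by_cases g3 : y = -W
  · refine ⟨4 * W + (W - 1 - x), by omega, by omega, ?_⟩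
    unfold fr
    rw [if_neg (by omega), if_neg (by omega), if_pos (by omega)]
    ext <;> simp only <;> omega
  · refine ⟨6 * W + (y + W), by omega, by omega, ?_⟩
    unfold fr
    rw [if_neg (by omega), if_neg (by omega), if_neg (by omega)]
    ext <;> simp only <;> omega

/-- from the inner part to the inner frame -/
theorem toI (h : Ok ki ko ci co N L) {x y : ℤ} (hS : S ki ko ci co N L x y)
    (h1 : -L + 3 ≤ x ∧ x ≤ L - 4 ∧ -L + 3 ≤ y ∧ y ≤ L - 4) :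
    ∃ u v : ℤ, CR ki ko ci co N L (x, y) (u, v) ∧ S ki ko ci co N L u v ∧
      (-(L - 3) ≤ u ∧ u < L - 3 ∧ -(L - 3) ≤ v ∧ v < L - 3) ∧
      (u = -(L - 3) ∨ u = L - 3 - 1 ∨ v = -(L - 3) ∨ v = L - 3 - 1) := by
  have h' := h
  obtain ⟨⟨j1, j2, j3⟩, ⟨-, k2, k3⟩, k4, k5⟩ := h'
  obtain ⟨⟨-, s2, -, s4, -⟩, s6⟩ := hS
  have s4' : ¬ Sb ki ci N x y := fun h => s4 ⟨h, by omega⟩
  unfold Uc at s6
  unfold Sb at s4'
  by_cases g1 : N ≤ x
  · have key : ∀ x', (x ≤ x' ∧ x' ≤ L - 4) ∨ (L - 4 ≤ x' ∧ x' ≤ x) → S ki ko ci co N L x' y :=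
      fun x' hx' => mkI h (by omega) (by omega) (by unfold Sb; omega) (by unfold Uc; omega)
    exact ⟨L - 4, y, hline _ _ _ key, key _ (by omega), by omega, by omega⟩
  by_cases g2 : y ≤ -N - 1
  · have key : ∀ y', (y ≤ y' ∧ y' ≤ -L + 3) ∨ (-L + 3 ≤ y' ∧ y' ≤ y) → S ki ko ci co N L x y' :=
      fun x' hx' => mkI h (by omega) (by omega) (by unfold Sb; omega) (by unfold Uc; omega)
    exact ⟨x, -L + 3, vline _ _ _ key, key _ (by omega), by omega, by omega⟩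
  by_cases g3 : N ≤ y ∧ 0 ≤ x + y
  · have key : ∀ y', (y ≤ y' ∧ y' ≤ L - 4) ∨ (L - 4 ≤ y' ∧ y' ≤ y) → S ki ko ci co N L x y' :=
      fun x' hx' => mkI h (by omega) (by omega) (by unfold Sb; omega) (by unfold Uc; omega)
    exact ⟨x, L - 4, vline _ _ _ key, key _ (by omega), by omega, by omega⟩
  · have key : ∀ x', (x ≤ x' ∧ x' ≤ -L + 3) ∨ (-L + 3 ≤ x' ∧ x' ≤ x) → S ki ko ci co N L x' y :=
      fun x' hx' => mkI h (by omega) (by omega) (by unfold Sb; omega) (by unfold Uc; omega)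
    exact ⟨-L + 3, y, hline _ _ _ key, key _ (by omega), by omega, by omega⟩

/-- from the outer part to the outer frame -/
theorem toO (h : Ok ki ko ci co N L) {x y : ℤ} (hS : S ki ko ci co N L x y)
    (h1 : ¬ (-L + 3 ≤ x ∧ x ≤ L - 4 ∧ -L + 3 ≤ y ∧ y ≤ L - 4)) :
    ∃ u v : ℤ, CR ki ko ci co N L (x, y) (u, v) ∧ S ki ko ci co N L u v ∧
      (-L ≤ u ∧ u < L ∧ -L ≤ v ∧ v < L) ∧
      (u = -L ∨ u = L - 1 ∨ v = -L ∨ v = L - 1) := by
  have h' := h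
  obtain ⟨⟨j1, j2, j3⟩, ⟨k1, k2, k3⟩, k4, k5⟩ := h'
  have hS' := hS
  obtain ⟨⟨s1, -, s3, -, s5⟩, s6⟩ := hS'
  unfold Uc at s6
  unfold Sb at s5
  unfold Rg at s3
  by_cases g1 : L - 2 ≤ x
  · have key : ∀ x', (x ≤ x' ∧ x' ≤ L - 1) ∨ (L - 1 ≤ x' ∧ x' ≤ x) → S ki ko ci co N L x' y :=
      fun x' hx' => mkO h (by omega) (by omega) (by unfold Sb; omega) (by unfold Uc; omega)
    exact ⟨L - 1, y, hline _ _ _ key, key _ (by omega), by omega, by omega⟩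
  by_cases g2 : y ≤ -L + 1
  · have key : ∀ y', (y ≤ y' ∧ y' ≤ -L) ∨ (-L ≤ y' ∧ y' ≤ y) → S ki ko ci co N L x y' :=
      fun x' hx' => mkO h (by omega) (by omega) (by unfold Sb; omega) (by unfold Uc; omega)
    exact ⟨x, -L, vline _ _ _ key, key _ (by omega), by omega, by omega⟩
  by_cases g3 : L - 2 ≤ y ∧ 0 ≤ x + y
  · have key : ∀ y', (y ≤ y' ∧ y' ≤ L - 1) ∨ (L - 1 ≤ y' ∧ y' ≤ y) → S ki ko ci co N L x y' :=
      fun x' hx' => mkO h (by omega) (by omega) (by unfold Sb; omega) (by unfold Uc; omega)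
    exact ⟨x, L - 1, vline _ _ _ key, key _ (by omega), by omega, by omega⟩
  by_cases g4 : x ≤ -L + 1 ∧ x + y ≤ -2
  · have key : ∀ x', (x ≤ x' ∧ x' ≤ -L) ∨ (-L ≤ x' ∧ x' ≤ x) → S ki ko ci co N L x' y :=
      fun x' hx' => mkO h (by omega) (by omega) (by unfold Sb; omega) (by unfold Uc; omega)
    exact ⟨-L, y, hline _ _ _ key, key _ (by omega), by omega, by omega⟩
  have g6 : -L ≤ x ∧ x ≤ -L + 7 ∧ L - 8 ≤ y ∧ y ≤ L - 1 := by
    clear s5
    omega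
  clear s3 s5 g1 g2 g3 g4 h1
  by_cases g5 : 0 ≤ x + y
  · have key : ∀ y', (y ≤ y' ∧ y' ≤ L - 1) ∨ (L - 1 ≤ y' ∧ y' ≤ y) → S ki ko ci co N L x y' :=
      fun x' hx' => mkG h (by omega) (by unfold Uc; omega)
    exact ⟨x, L - 1, vline _ _ _ key, key _ (by omega), by omega, by omega⟩
  · have key : ∀ x', (x ≤ x' ∧ x' ≤ -L) ∨ (-L ≤ x' ∧ x' ≤ x) → S ki ko ci co N L x' y :=
      fun x' hx' => mkG h (by omega) (by unfold Uc; omega)
    exact ⟨-L, y, hline _ _ _ key, key _ (by omega), by omega, by omega⟩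

theorem frcp {k : ℕ} {c W : ℤ} (hk : k < 4) (h1 : -W ≤ c) (h2 : c < W) :
    (k = 0 ∧ fr W (cp k c W) = (c, W - 1)) ∨ (k = 1 ∧ fr W (cp k c W) = (W - 1, c)) ∨
    (k = 2 ∧ fr W (cp k c W) = (c, -W)) ∨ (k = 3 ∧ fr W (cp k c W) = (-W, c)) := by
  obtain rfl | rfl | rfl | rfl : k = 0 ∨ k = 1 ∨ k = 2 ∨ k = 3 := by omega
  · left
    refine ⟨rfl, ?_⟩
    have e : cp 0 c W = c + W := by simp [cp]
    rw [e]
    unfold fr
    rw [if_pos (by omega)]
    ext <;> simp only; omega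
  · right; left
    refine ⟨rfl, ?_⟩
    have e : cp 1 c W = 2 * W + (W - 1 - c) := by simp [cp]
    rw [e]
    unfold fr
    rw [if_neg (by omega), if_pos (by omega)]
    ext <;> simp only; omega
  · right; right; left
    refine ⟨rfl, ?_⟩
    have e : cp 2 c W = 4 * W + (W - 1 - c) := by simp [cp]
    rw [e]
    unfold fr
    rw [if_neg (by omega), if_neg (by omega), if_pos (by omega)]
    ext <;> simp only; omega
  · right; right; right
    refine ⟨rfl, ?_⟩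
    have e : cp 3 c W = 6 * W + (c + W) := by simp [cp]
    rw [e]
    unfold fr
    rw [if_neg (by omega), if_neg (by omega), if_neg (by omega)]
    ext <;> simp only; omega

theorem notcpO (h : Ok ki ko ci co N L) {s : ℤ}
    (hS : S ki ko ci co N L (fr L s).1 (fr L s).2) : s ≠ cp ko co L := by
  rintro rfl
  obtain ⟨⟨j1, j2, j3⟩, ⟨k1, k2, k3⟩, k4, k5⟩ := h
  obtain ⟨⟨-, -, -, -, s5⟩, -⟩ := hS
  apply s5
  rcases frcp (c := co) (W := L) k1 (by omega) (by omega) with ⟨g1, g2⟩ | ⟨g1, g2⟩ | ⟨g1, g2⟩ |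
    ⟨g1, g2⟩ <;> rw [g2] <;> unfold Sb <;>
    simp only [true_and] <;> omega

theorem notcpI (h : Ok ki ko ci co N L) {s : ℤ}
    (hS : S ki ko ci co N L (fr (L - 3) s).1 (fr (L - 3) s).2) : s ≠ cp ki ci (L - 3) := by
  rintro rfl
  obtain ⟨⟨j1, j2, j3⟩, ⟨k1, k2, k3⟩, k4, k5⟩ := h
  obtain ⟨⟨-, -, -, s4, -⟩, -⟩ := hS
  apply s4
  rcases frcp (c := ci) (W := L - 3) j1 (by omega) (by omega) with ⟨g1, g2⟩ | ⟨g1, g2⟩ |
    ⟨g1, g2⟩ | ⟨g1, g2⟩ <;> rw [g2] <;> unfold Sb <;>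
    simp only [true_and] <;> omega

/-- **coarse connectivity** -/
theorem coarse (h : Ok ki ko ci co N L) {x y : ℤ} (hS : S ki ko ci co N L x y) :
    CR ki ko ci co N L (x, y) (-L + 1, L - 1) ∨ CR ki ko ci co N L (x, y) (-L, L - 2) := by
  have h' := h
  obtain ⟨⟨j1, j2, j3⟩, ⟨k1, k2, k3⟩, k4, k5⟩ := h'
  by_cases h1 : -L + 3 ≤ x ∧ x ≤ L - 4 ∧ -L + 3 ≤ y ∧ y ≤ L - 4
  · obtain ⟨u, v, c1, c2, c3, c4⟩ := toI h hS h1
    obtain ⟨s, s1, s2, s3⟩ := on_fr (by omega) c3 c4 (fun g => by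
      have := c2.2
      unfold Uc at this
      omega)
    have hne := notcpI h (s := s) (by rw [s3]; exact c2)
    rw [← s3] at c1
    rcases lt_or_gt_of_ne hne with g | g
    · exact Or.inl ((c1.tr (iA h s1 g)).tr (jA h))
    · exact Or.inr ((c1.tr (iB h s2 g)).tr (jB h))
  · obtain ⟨u, v, c1, c2, c3, c4⟩ := toO h hS h1
    obtain ⟨s, s1, s2, s3⟩ := on_fr (by omega) c3 c4 (fun g => by
      have := c2.2
      unfold Uc at this
      omega)
    have hne := notcpO h (s := s) (by rw [s3]; exact c2)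
    rw [← s3] at c1
    rw [← fr1 (L := L) (by omega), ← fr2 (L := L) (by omega)]
    rcases lt_or_gt_of_ne hne with g | g
    · exact Or.inl (c1.tr (oA h s1 g))
    · exact Or.inr (c1.tr (oB h s2 g))

/-- the lower neighbour of a cut square -/
theorem cutD (h : Ok ki ko ci co N L) {x y : ℤ} (hF : Fz ki ko ci co N L x y) (h1 : x + y = -1)
    (h2 : x - y < 1) : S ki ko ci co N L x (y - 1) := by
  have h' := h
  obtain ⟨⟨j1, j2, j3⟩, ⟨k1, k2, k3⟩, k4, k5⟩ := h'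
  obtain ⟨s1, s2, s3, s4, s5⟩ := hF
  refine ⟨⟨by omega, by omega, ?_, ?_, ?_⟩, by unfold Uc; omega⟩
  · unfold Rg; omega
  · unfold Sb; omega
  · unfold Sb; omega

/-- the right neighbour of a cut square -/
theorem cutR (h : Ok ki ko ci co N L) {x y : ℤ} (hF : Fz ki ko ci co N L x y) (h1 : x + y = -1)
    (h2 : x - y < 1) : S ki ko ci co N L (x + 1) y := by
  have h' := h
  obtain ⟨⟨j1, j2, j3⟩, ⟨k1, k2, k3⟩, k4, k5⟩ := h'
  obtain ⟨s1, s2, s3, s4, s5⟩ := hF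
  refine ⟨⟨by omega, by omega, ?_, ?_, ?_⟩, by unfold Uc; omega⟩
  · unfold Rg; omega
  · unfold Sb; omega
  · unfold Sb; omega

end TEX
end Pool.Agent.W499.KI
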