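import Pool.Agent.W424.KI.Stm
import Pool.Agent.W499.KI.Crs

/-!
# KI-EX: the closed region has two sides (helper499)
-/

set_option autoImplicit false

namespace Pool.Agent.W499.KI
open H974 H906.Cyl
open Pool.Agent.H160R2.ML (nm)
open Pool.Agent.H160R2.MU (Cel csq cpos EP inSq)
open Pool.Agent.W801.OU
open Pool.Agent.W808.KZ (vp fp AdmZ OutF LandZ nrp ZCr mrg)
open Pool.Agent.W424.KI

namespace TEX

/-! ## faces -/

/-- the normal form of the point of a face -/
noncomputable def nf (p : ℤ × ℤ) : ℤ × ℤ := nrm {0} (p.1 - p.2) (p.1 + p.2 + 1) (p.1 - p.2)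

theorem nrm_eq (x y d : ℤ) (hd : d = x - y ∨ d = x - y - 1) :
    nrm {0} d (x + y + 1) (x - y) = nf (x, y) := by
  unfold nf nrm
  by_cases h : x + y + 1 = 0
  · have h2 : d < 0 ↔ x - y < 0 := by
      rcases hd with rfl | rfl
      · rfl
      · constructor <;> intro h3 <;> omega
    simp only [h, Set.mem_singleton_iff, and_true, h2]
  · simp only [Set.mem_singleton_iff, h, and_false, if_false]

theorem lz_h {B : Set Edg} (x y : ℤ) (hB : ((x, y, false) : Edg) ∈ B)
    (hz : ((x, y, false) : Edg) ∉ zp {0}) :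
    LZ {0} B ∅ (nf (x - 1, y)) (nf (x, y)) := by
  refine ⟨(x, y, false), hB, hz, Or.inr ⟨fun h => h, ?_⟩⟩
  have hd : dco ((x, y, false) : Edg) = x - y - 1 := by simp [dco]
  have h := Dg.rise (Z := {0}) (c := 1) (e := ((x, y, false) : Edg))
    (by rw [hd]; show (x + y + (x - y - 1)) % 2 = 1; omega)
  rw [hd] at h
  have e1 : nrm {0} (x - y - 1) (x + y) (x - y - 1) = nf (x - 1, y) := by
    have := nrm_eq (x - 1) y (x - y - 1) (by omega)
    have e : x - 1 + y + 1 = x + y := by ring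
    have e' : x - 1 - y = x - y - 1 := by ring
    rw [e, e'] at this
    exact this
  have e2 : nrm {0} (x - y - 1) (x + y + 1) (x - y - 1 + 1) = nf (x, y) := by
    have := nrm_eq x y (x - y - 1) (by omega)
    have e' : x - y - 1 + 1 = x - y := by ring
    rw [e']
    exact this
  rw [← e1, ← e2]
  exact h

theorem lz_v {B : Set Edg} (x y : ℤ) (hB : ((x, y, true) : Edg) ∈ B)
    (hz : ((x, y, true) : Edg) ∉ zp {0}) :
    LZ {0} B ∅ (nf (x, y - 1)) (nf (x, y)) := by
  refine ⟨(x, y, true), hB, hz, Or.inr ⟨fun h => h, ?_⟩⟩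
  have hd : dco ((x, y, true) : Edg) = x - y := by simp [dco]
  have h := Dg.fall (Z := {0}) (c := 1) (e := ((x, y, true) : Edg))
    (by rw [hd]; show (x + y + (x - y)) % 2 = 1 - 1; omega)
  rw [hd] at h
  have e1 : nrm {0} (x - y) (x + y) (x - y + 1) = nf (x, y - 1) := by
    have := nrm_eq x (y - 1) (x - y) (by omega)
    have e : x + (y - 1) + 1 = x + y := by ring
    have e' : x - (y - 1) = x - y + 1 := by ring
    rw [e, e'] at this
    exact this
  have e2 : nrm {0} (x - y) (x + y + 1) (x - y) = nf (x, y) :=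
    nrm_eq x y (x - y) (by omega)
  rw [← e1, ← e2]
  exact h

theorem dg_h (x y : ℤ) :
    Dg {0} 1 ((x, y, false) : Edg) (nf (x - 1, y)) (nf (x, y)) := by
  have hd : dco ((x, y, false) : Edg) = x - y - 1 := by simp [dco]
  have h := Dg.rise (Z := {0}) (c := 1) (e := ((x, y, false) : Edg))
    (by rw [hd]; show (x + y + (x - y - 1)) % 2 = 1; omega)
  rw [hd] at h
  have e1 : nrm {0} (x - y - 1) (x + y) (x - y - 1) = nf (x - 1, y) := by
    have := nrm_eq (x - 1) y (x - y - 1) (by omega)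
    have e : x - 1 + y + 1 = x + y := by ring
    have e' : x - 1 - y = x - y - 1 := by ring
    rw [e, e'] at this
    exact this
  have e2 : nrm {0} (x - y - 1) (x + y + 1) (x - y - 1 + 1) = nf (x, y) := by
    have := nrm_eq x y (x - y - 1) (by omega)
    have e' : x - y - 1 + 1 = x - y := by ring
    rw [e']
    exact this
  rw [← e1, ← e2]
  exact h

theorem nf_off {p : ℤ × ℤ} (h : p.1 + p.2 + 1 ≠ 0 ∨ 0 ≤ p.1 - p.2) :
    nf p = (p.1 + p.2 + 1, p.1 - p.2) := by
  unfold nf nrm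
  rw [if_neg]
  rintro ⟨h1, h2⟩
  rw [Set.mem_singleton_iff] at h2
  omega

/-- the two faces of an edge -/
theorem cor1 {e : Edg} {x : ℤ × ℤ} (h : Cor {0} 1 e x) : e ∉ zp {0} ∧
    ((∃ X Y : ℤ, e = (X, Y, false) ∧ (x = nf (X - 1, Y) ∨ x = nf (X, Y))) ∨
      (∃ X Y : ℤ, e = (X, Y, true) ∧ (x = nf (X, Y - 1) ∨ x = nf (X, Y)))) := by
  obtain ⟨h0, y, hy⟩ := h
  refine ⟨h0, ?_⟩
  obtain ⟨X, Y, b⟩ := e
  cases b
  · left
    refine ⟨X, Y, rfl, ?_⟩
    have hd : dco ((X, Y, false) : Edg) = X - Y - 1 := by simp [dco]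
    have e1 : nrm {0} (X - Y - 1) (X + Y) (X - Y - 1) = nf (X - 1, Y) := by
      have := nrm_eq (X - 1) Y (X - Y - 1) (by omega)
      have e : X - 1 + Y + 1 = X + Y := by ring
      have e' : X - 1 - Y = X - Y - 1 := by ring
      rw [e, e'] at this
      exact this
    have e2 : nrm {0} (X - Y - 1) (X + Y + 1) (X - Y - 1 + 1) = nf (X, Y) := by
      have := nrm_eq X Y (X - Y - 1) (by omega)
      have e' : X - Y - 1 + 1 = X - Y := by ring
      rw [e']
      exact this
    have key : ∀ u v : ℤ × ℤ, Dg {0} 1 ((X, Y, false) : Edg) u v →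
        u = nf (X - 1, Y) ∧ v = nf (X, Y) := by
      intro u v huv
      cases huv with
      | rise hp =>
        rw [hd]
        exact ⟨e1, e2⟩
      | fall hp =>
        exfalso
        rw [hd] at hp
        simp only at hp
        omega
    rcases hy with hy | hy
    · exact Or.inl (key _ _ hy).1
    · exact Or.inr (key _ _ hy).2
  · right
    refine ⟨X, Y, rfl, ?_⟩
    have hd : dco ((X, Y, true) : Edg) = X - Y := by simp [dco]
    have e1 : nrm {0} (X - Y) (X + Y) (X - Y + 1) = nf (X, Y - 1) := by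
      have := nrm_eq X (Y - 1) (X - Y) (by omega)
      have e : X + (Y - 1) + 1 = X + Y := by ring
      have e' : X - (Y - 1) = X - Y + 1 := by ring
      rw [e, e'] at this
      exact this
    have e2 : nrm {0} (X - Y) (X + Y + 1) (X - Y) = nf (X, Y) :=
      nrm_eq X Y (X - Y) (by omega)
    have key : ∀ u v : ℤ × ℤ, Dg {0} 1 ((X, Y, true) : Edg) u v →
        u = nf (X, Y - 1) ∧ v = nf (X, Y) := by
      intro u v huv
      cases huv with
      | fall hp =>
        rw [hd]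
        exact ⟨e1, e2⟩
      | rise hp =>
        exfalso
        rw [hd] at hp
        simp only at hp
        omega
    rcases hy with hy | hy
    · exact Or.inl (key _ _ hy).1
    · exact Or.inr (key _ _ hy).2

/-! ## coarse squares and edges -/

theorem dv {r x z : ℤ} (hr : 0 < r) (h1 : r * z ≤ x) (h2 : x < r * z + r) : x / r = z := by
  have a1 := Int.mul_ediv_self_le (x := x) (k := r) hr.ne'
  have a2 := Int.lt_mul_ediv_self_add (x := x) hr
  have b1 : r * (x / r) < r * (z + 1) := by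
    have : r * (z + 1) = r * z + r := by ring
    omega
  have b2 : r * z < r * (x / r + 1) := by
    have : r * (x / r + 1) = r * (x / r) + r := by ring
    omega
  have c1 := lt_of_mul_lt_mul_left b1 hr.le
  have c2 := lt_of_mul_lt_mul_left b2 hr.le
  omega

/-- bounds of a face by its coarse square -/
theorem cb {r : ℕ} (hr : 0 < r) (x : ℤ) :
    (r : ℤ) * (x / (r : ℤ)) ≤ x ∧ x < r * (x / (r : ℤ)) + r := by
  have hr' : (0 : ℤ) < r := by exact_mod_cast hr
  exact ⟨Int.mul_ediv_self_le (x := x) (k := (r : ℤ)) hr'.ne', Int.lt_mul_ediv_self_add (x := x) hr'⟩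

theorem mle {r a b : ℤ} (hr : 0 < r) (h : r * a ≤ r * b) : a ≤ b := le_of_mul_le_mul_left h hr

theorem mlt {r a b : ℤ} (hr : 0 < r) (h : r * a < r * b) : a < b := lt_of_mul_lt_mul_left h hr.le

/-- edges of two faces of squares outside of `P` are not in `EP r P` -/
theorem nEP_h {r : ℕ} (hr : 0 < r) {P : Set (ℤ × ℤ)} (x y : ℤ)
    (h1 : ((x - 1) / (r : ℤ), y / (r : ℤ)) ∉ P) (h2 : (x / (r : ℤ), y / (r : ℤ)) ∉ P) :
    ((x, y, false) : Edg) ∉ EP r P := by
  rintro ⟨z, hz, he⟩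
  unfold H12S.sqE at he
  rw [mem_RE_false] at he
  obtain ⟨e1, e2, e3, e4⟩ := he
  have hr' : (0 : ℤ) < r := by exact_mod_cast hr
  have hy := dv hr' e3 e4
  rcases eq_or_lt_of_le e2 with h | h
  · have hx : (x - 1) / (r : ℤ) = z.1 := dv hr' (by omega) (by omega)
    rw [hx, hy] at h1
    exact h1 hz
  · have hx : x / (r : ℤ) = z.1 := dv hr' e1 h
    rw [hx, hy] at h2
    exact h2 hz

theorem nEP_v {r : ℕ} (hr : 0 < r) {P : Set (ℤ × ℤ)} (x y : ℤ)
    (h1 : (x / (r : ℤ), (y - 1) / (r : ℤ)) ∉ P) (h2 : (x / (r : ℤ), y / (r : ℤ)) ∉ P) :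
    ((x, y, true) : Edg) ∉ EP r P := by
  rintro ⟨z, hz, he⟩
  unfold H12S.sqE at he
  rw [mem_RE_true] at he
  obtain ⟨e1, e2, e3, e4⟩ := he
  have hr' : (0 : ℤ) < r := by exact_mod_cast hr
  have hx := dv hr' e1 e2
  rcases eq_or_lt_of_le e4 with h | h
  · have hy : (y - 1) / (r : ℤ) = z.2 := dv hr' (by omega) (by omega)
    rw [hx, hy] at h1
    exact h1 hz
  · have hy : y / (r : ℤ) = z.2 := dv hr' e3 h
    rw [hx, hy] at h2
    exact h2 hz

/-- edges of a face of a square of `P` are in `EP r P` -/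
theorem iEP_h {r : ℕ} (hr : 0 < r) {P : Set (ℤ × ℤ)} (x y : ℤ)
    (h : ((x - 1) / (r : ℤ), y / (r : ℤ)) ∈ P ∨ (x / (r : ℤ), y / (r : ℤ)) ∈ P) :
    ((x, y, false) : Edg) ∈ EP r P := by
  obtain ⟨a1, a2⟩ := cb hr y
  rcases h with h | h
  · refine ⟨_, h, ?_⟩
    unfold H12S.sqE
    rw [mem_RE_false]
    obtain ⟨b1, b2⟩ := cb hr (x - 1)
    dsimp only
    exact ⟨by omega, by omega, a1, a2⟩
  · refine ⟨_, h, ?_⟩
    unfold H12S.sqE
    rw [mem_RE_false]
    obtain ⟨b1, b2⟩ := cb hr x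
    dsimp only
    exact ⟨by omega, by omega, a1, a2⟩

theorem iEP_v {r : ℕ} (hr : 0 < r) {P : Set (ℤ × ℤ)} (x y : ℤ)
    (h : (x / (r : ℤ), (y - 1) / (r : ℤ)) ∈ P ∨ (x / (r : ℤ), y / (r : ℤ)) ∈ P) :
    ((x, y, true) : Edg) ∈ EP r P := by
  obtain ⟨a1, a2⟩ := cb hr x
  rcases h with h | h
  · refine ⟨_, h, ?_⟩
    unfold H12S.sqE
    rw [mem_RE_true]
    obtain ⟨b1, b2⟩ := cb hr (y - 1)
    dsimp only
    exact ⟨a1, a2, by omega, by omega⟩
  · refine ⟨_, h, ?_⟩
    unfold H12S.sqE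
    rw [mem_RE_true]
    obtain ⟨b1, b2⟩ := cb hr y
    dsimp only
    exact ⟨a1, a2, by omega, by omega⟩

/-! ## moves -/

section moves
variable {N L r : ℕ} {Ci Co : Cel} {R : ℕ}

/-- free squares -/
abbrev FZ (N L : ℕ) (Ci Co : Cel) (u v : ℤ) : Prop := Fz Ci.1 Co.1 Ci.2 Co.2 N L u v

/-- free squares which are not cut -/
abbrev SZ (N L : ℕ) (Ci Co : Cel) (u v : ℤ) : Prop := S Ci.1 Co.1 Ci.2 Co.2 N L u v

theorem ok_of (G : Geo N L r Ci Co R) : Ok Ci.1 Co.1 Ci.2 Co.2 (N : ℤ) (L : ℤ) := by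
  obtain ⟨hN, hL, hr, ⟨i1, i2, i3⟩, ⟨o1, o2, o3⟩, hR⟩ := G
  exact ⟨⟨i1, i2, i3⟩, ⟨o1, o2, o3⟩, by exact_mod_cast hN, by exact_mod_cast hL⟩

theorem fz1 (G : Geo N L r Ci Co R) {u v : ℤ} (h : FZ N L Ci Co u v) :
    (u, v) ∉ BxI N L ∧ (u, v) ∉ TubI N L Ci Co := by
  obtain ⟨⟨j1, j2, j3⟩, ⟨k1, k2, k3⟩, k4, k5⟩ := ok_of G
  obtain ⟨f1, f2, f3, f4, f5⟩ := h
  constructor
  · rintro (h | h)
    · exact f2 h
    · exact h f1
  · rintro (h | h | h)
    · apply f4
      simp only [StI, Set.mem_ofPred_eq] at h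
      clear f1 f2 f3 f4 f5
      unfold Sb
      omega
    · exact f3 h
    · apply f5
      simp only [StO, Set.mem_ofPred_eq] at h
      clear f1 f2 f3 f4 f5
      unfold Sb
      omega

theorem fz2 (G : Geo N L r Ci Co R) {u v : ℤ} (h1 : (u, v) ∉ BxI N L)
    (h2 : (u, v) ∉ TubI N L Ci Co) : FZ N L Ci Co u v := by
  obtain ⟨⟨j1, j2, j3⟩, ⟨k1, k2, k3⟩, k4, k5⟩ := ok_of G
  have h0 : -(L : ℤ) ≤ u ∧ u < L ∧ -(L : ℤ) ≤ v ∧ v < L := by
    by_contra h
    exact h1 (Or.inr h)
  refine ⟨h0, fun h => h1 (Or.inl h), fun h => h2 (Or.inr (Or.inl h)), fun h => h2 (Or.inl ?_),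
    fun h => h2 (Or.inr (Or.inr ?_))⟩
  · clear h1 h2
    simp only [StI, Set.mem_ofPred_eq]
    unfold Sb at h
    omega
  · clear h1 h2
    simp only [StO, Set.mem_ofPred_eq]
    unfold Sb at h
    omega

/-- connection of faces -/
def Cn (N L r : ℕ) (Ci Co : Cel) (p q : ℤ × ℤ) : Prop :=
  RZ {0} (Clo N L r Ci Co) ∅ (nf p) (nf q)

theorem Cn.rf (p : ℤ × ℤ) : Cn N L r Ci Co p p := Relation.EqvGen.refl _

theorem Cn.tr {p q u : ℤ × ℤ} (h1 : Cn N L r Ci Co p q) (h2 : Cn N L r Ci Co q u) :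
    Cn N L r Ci Co p u := Relation.EqvGen.trans _ _ _ h1 h2

theorem Cn.sy {p q : ℤ × ℤ} (h1 : Cn N L r Ci Co p q) : Cn N L r Ci Co q p :=
  Relation.EqvGen.symm _ _ h1

theorem mvh (G : Geo N L r Ci Co R) (x y : ℤ) (h1 : FZ N L Ci Co ((x - 1) / (r : ℤ)) (y / (r : ℤ)))
    (h2 : FZ N L Ci Co (x / (r : ℤ)) (y / (r : ℤ))) (hz : x + y + 1 = 0 → 1 ≤ x - y) :
    Cn N L r Ci Co (x - 1, y) (x, y) := by
  have hr : 0 < r := by have := G.hr; omega
  have g1 := fz1 G h1
  have g2 := fz1 G h2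
  refine Relation.EqvGen.rel _ _ (lz_h x y ⟨nEP_h hr _ _ g1.1 g2.1, nEP_h hr _ _ g1.2 g2.2⟩ ?_)
  rintro ⟨z1, z2⟩
  have hd : dco ((x, y, false) : Edg) = x - y - 1 := by simp [dco]
  rw [hd] at z1
  have z3 : x + y + 1 = 0 := z2
  have := hz z3
  omega

theorem mvv (G : Geo N L r Ci Co R) (x y : ℤ) (h1 : FZ N L Ci Co (x / (r : ℤ)) ((y - 1) / (r : ℤ)))
    (h2 : FZ N L Ci Co (x / (r : ℤ)) (y / (r : ℤ))) (hz : x + y + 1 = 0 → 1 ≤ x - y) :
    Cn N L r Ci Co (x, y - 1) (x, y) := by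
  have hr : 0 < r := by have := G.hr; omega
  have g1 := fz1 G h1
  have g2 := fz1 G h2
  refine Relation.EqvGen.rel _ _ (lz_v x y ⟨nEP_v hr _ _ g1.1 g2.1, nEP_v hr _ _ g1.2 g2.2⟩ ?_)
  rintro ⟨z1, z2⟩
  have hd : dco ((x, y, true) : Edg) = x - y := by simp [dco]
  rw [hd] at z1
  have z3 : x + y + 1 = 0 := z2
  have := hz z3
  omega

/-- horizontal moves -/
theorem gh (G : Geo N L r Ci Co R) (y a : ℤ) (m : ℕ)
    (h : ∀ i : ℤ, 0 ≤ i → i ≤ m → FZ N L Ci Co ((a + i) / (r : ℤ)) (y / (r : ℤ)))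
    (hz : ∀ i : ℤ, 1 ≤ i → i ≤ m → (a + i) + y + 1 = 0 → 1 ≤ a + i - y) :
    Cn N L r Ci Co (a, y) (a + m, y) := by
  induction m with
  | zero => simpa using Cn.rf _
  | succ m ih =>
    have h1 := ih (fun i hi hi2 => h i hi (by push_cast; omega))
      (fun i hi hi2 => hz i hi (by push_cast; omega))
    have h2 := h m (by omega) (by push_cast; omega)
    have h3 := h (m + 1 : ℕ) (by omega) (le_refl _)
    have h4 := hz (m + 1 : ℕ) (by push_cast; omega) (le_refl _)
    have e : a + (m : ℤ) = a + (m + 1 : ℕ) - 1 := by push_cast; ring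
    refine h1.tr ?_
    have := mvh G (a + (m + 1 : ℕ)) y (by rw [← e]; exact h2) h3 h4
    rw [← e] at this
    exact this

/-- vertical moves -/
theorem gv (G : Geo N L r Ci Co R) (x b : ℤ) (m : ℕ)
    (h : ∀ i : ℤ, 0 ≤ i → i ≤ m → FZ N L Ci Co (x / (r : ℤ)) ((b + i) / (r : ℤ)))
    (hz : ∀ i : ℤ, 1 ≤ i → i ≤ m → x + (b + i) + 1 = 0 → 1 ≤ x - (b + i)) :
    Cn N L r Ci Co (x, b) (x, b + m) := by
  induction m with
  | zero => simpa using Cn.rf _
  | succ m ih =>
    have h1 := ih (fun i hi hi2 => h i hi (by push_cast; omega))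
      (fun i hi hi2 => hz i hi (by push_cast; omega))
    have h2 := h m (by omega) (by push_cast; omega)
    have h3 := h (m + 1 : ℕ) (by omega) (le_refl _)
    have h4 := hz (m + 1 : ℕ) (by push_cast; omega) (le_refl _)
    have e : b + (m : ℤ) = b + (m + 1 : ℕ) - 1 := by push_cast; ring
    refine h1.tr ?_
    have := mvv G x (b + (m + 1 : ℕ)) (by rw [← e]; exact h2) h3 h4
    rw [← e] at this
    exact this

/-- no zipper in the squares which are not cut -/
theorem nz (hr : 0 < r) {x y : ℤ} (hS : Uc (x / (r : ℤ)) (y / (r : ℤ))) :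
    x + y + 1 = 0 → 1 ≤ x - y := by
  intro hj
  obtain ⟨a1, a2⟩ := cb hr x
  obtain ⟨b1, b2⟩ := cb hr y
  unfold Uc at hS
  set u := x / (r : ℤ) with hu
  set v := y / (r : ℤ) with hv
  have hr' : (1 : ℤ) ≤ r := by exact_mod_cast hr
  have e4 : (r : ℤ) * (u + v) = r * u + r * v := by ring
  have h1 : u + v = -1 := by
    by_contra hne
    rcases lt_or_gt_of_ne hne with h | h
    · have : (r : ℤ) * (u + v) ≤ r * (-2) := mul_le_mul_of_nonneg_left (by omega) (by omega)
      omega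
    · have : (r : ℤ) * 0 ≤ r * (u + v) := mul_le_mul_of_nonneg_left (by omega) (by omega)
      omega
  have h2 : 1 ≤ u - v := by omega
  have h3 : (r : ℤ) * 1 ≤ r * (u - v) := mul_le_mul_of_nonneg_left h2 (by omega)
  have h4 : (r : ℤ) * (u - v) = r * u - r * v := by ring
  omega

theorem fh (G : Geo N L r Ci Co R) (y a : ℤ) (m : ℕ)
    (h : ∀ i : ℤ, 0 ≤ i → i ≤ m → SZ N L Ci Co ((a + i) / (r : ℤ)) (y / (r : ℤ))) :
    Cn N L r Ci Co (a, y) (a + m, y) :=
  gh G y a m (fun i h0 h1 => (h i h0 h1).1)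
    (fun i h0 h1 => nz (by have := G.hr; omega) (h i (by omega) h1).2)

theorem fv (G : Geo N L r Ci Co R) (x b : ℤ) (m : ℕ)
    (h : ∀ i : ℤ, 0 ≤ i → i ≤ m → SZ N L Ci Co (x / (r : ℤ)) ((b + i) / (r : ℤ))) :
    Cn N L r Ci Co (x, b) (x, b + m) :=
  gv G x b m (fun i h0 h1 => (h i h0 h1).1)
    (fun i h0 h1 => nz (by have := G.hr; omega) (h i (by omega) h1).2)

/-- the corner of a coarse square is connected to all its faces -/
theorem toRep (G : Geo N L r Ci Co R) (x y : ℤ) (hS : SZ N L Ci Co (x / (r : ℤ)) (y / (r : ℤ))) :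
    Cn N L r Ci Co (r * (x / (r : ℤ)), r * (y / (r : ℤ))) (x, y) := by
  have hr : 0 < r := by have := G.hr; omega
  have hr' : (0 : ℤ) < r := by exact_mod_cast hr
  obtain ⟨a1, a2⟩ := cb hr x
  obtain ⟨b1, b2⟩ := cb hr y
  set u := x / (r : ℤ) with hu
  set v := y / (r : ℤ) with hv
  have h1 := fh G (r * v) (r * u) (x - r * u).toNat ?_
  · have h2 := fv G x (r * v) (y - r * v).toNat ?_
    · have e1 : r * u + ((x - r * u).toNat : ℤ) = x := by omega
      have e2 : r * v + ((y - r * v).toNat : ℤ) = y := by omega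
      rw [e1] at h1
      rw [e2] at h2
      exact h1.tr h2
    · intro i i0 i1
      rw [← hu, dv (z := v) hr' (by omega) (by omega)]
      exact hS
  · intro i i0 i1
    rw [dv (z := u) hr' (by omega) (by omega), dv (z := v) hr' (by omega) (by omega)]
    exact hS

/-- coarse connections lift to faces -/
theorem lift (G : Geo N L r Ci Co R) {a b : ℤ × ℤ}
    (h : CR Ci.1 Co.1 Ci.2 Co.2 (N : ℤ) (L : ℤ) a b) :
    Cn N L r Ci Co (r * a.1, r * a.2) (r * b.1, r * b.2) := by
  have hr : 0 < r := by have := G.hr; omega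
  have hr' : (0 : ℤ) < r := by exact_mod_cast hr
  induction h with
  | rel a b h =>
    obtain ⟨h1, h2, rfl | rfl⟩ := h
    · have h3 := fh G (r * a.2) (r * a.1) r ?_
      · have e : (r : ℤ) * a.1 + r = r * (a.1 + 1) := by ring
        rw [e] at h3
        exact h3
      · intro i i0 i1
        rw [dv (x := r * a.2) (z := a.2) hr' (by omega) (by omega)]
        rcases eq_or_lt_of_le i1 with h | h
        · have e : (r : ℤ) * (a.1 + 1) = r * a.1 + r := by ring
          rw [dv (z := a.1 + 1) hr' (by omega) (by omega)]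
          exact h2
        · rw [dv (z := a.1) hr' (by omega) (by omega)]
          exact h1
    · have h3 := fv G (r * a.1) (r * a.2) r ?_
      · have e : (r : ℤ) * a.2 + r = r * (a.2 + 1) := by ring
        rw [e] at h3
        exact h3
      · intro i i0 i1
        rw [dv (x := r * a.1) (z := a.1) hr' (by omega) (by omega)]
        rcases eq_or_lt_of_le i1 with h | h
        · have e : (r : ℤ) * (a.2 + 1) = r * a.2 + r := by ring
          rw [dv (z := a.2 + 1) hr' (by omega) (by omega)]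
          exact h2
        · rw [dv (z := a.2) hr' (by omega) (by omega)]
          exact h1
  | refl a => exact Cn.rf _
  | symm a b _ ih => exact ih.sy
  | trans a b d _ _ ih1 ih2 => exact ih1.tr ih2

/-- the face of side `A` -/
def fA (L r : ℕ) : ℤ × ℤ := (r * (-(L : ℤ) + 1), r * ((L : ℤ) - 1))

/-- the face of side `B` -/
def fB (L r : ℕ) : ℤ × ℤ := (r * (-(L : ℤ)), r * ((L : ℤ) - 2))

theorem fineS (G : Geo N L r Ci Co R) (x y : ℤ) (hS : SZ N L Ci Co (x / (r : ℤ)) (y / (r : ℤ))) :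
    Cn N L r Ci Co (x, y) (fA L r) ∨ Cn N L r Ci Co (x, y) (fB L r) := by
  have hrep := toRep G x y hS
  rcases coarse (ok_of G) hS with h | h
  · exact Or.inl (hrep.sy.tr (lift G h))
  · exact Or.inr (hrep.sy.tr (lift G h))

/-- every free face off the zipper is connected to one of the two faces -/
theorem fineL (G : Geo N L r Ci Co R) (x y : ℤ) (hL : FZ N L Ci Co (x / (r : ℤ)) (y / (r : ℤ)))
    (hz : x + y + 1 ≠ 0) :
    Cn N L r Ci Co (x, y) (fA L r) ∨ Cn N L r Ci Co (x, y) (fB L r) := by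
  by_cases hcut : x / (r : ℤ) + y / (r : ℤ) = -1 ∧ x / (r : ℤ) - y / (r : ℤ) < 1
  · obtain ⟨c1, c2⟩ := hcut
    have hr : 0 < r := by have := G.hr; omega
    have hr' : (0 : ℤ) < r := by exact_mod_cast hr
    obtain ⟨a1, a2⟩ := cb hr x
    obtain ⟨b1, b2⟩ := cb hr y
    set u := x / (r : ℤ) with hu
    set v := y / (r : ℤ) with hv
    have huv : (r : ℤ) * u + r * v = -r := by
      have : (r : ℤ) * u + r * v = r * (u + v) := by ring
      rw [this, c1]; ring
    rcases lt_or_gt_of_ne hz with h | h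
    · -- move down
      have hS : SZ N L Ci Co u (v - 1) := cutD (ok_of G) hL c1 c2
      have hw : (r * v - 1) / (r : ℤ) = v - 1 := by
        apply dv hr'
        · have : (r : ℤ) * (v - 1) = r * v - r := by ring
          omega
        · have : (r : ℤ) * (v - 1) = r * v - r := by ring
          omega
      have hm := gv G x (r * v - 1) (y - (r * v - 1)).toNat ?_ ?_
      · have e1 : r * v - 1 + ((y - (r * v - 1)).toNat : ℤ) = y := by omega
        rw [e1] at hm
        have hf := fineS G x (r * v - 1) (by rw [hw, ← hu]; exact hS)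
        rcases hf with hf | hf
        · exact Or.inl (hm.sy.tr hf)
        · exact Or.inr (hm.sy.tr hf)
      · intro i i0 i1
        rcases eq_or_lt_of_le i0 with h | h
        · rw [← h, add_zero, hw, ← hu]
          exact hS.1
        · rw [dv (x := r * v - 1 + i) (z := v) hr' (by omega) (by omega), ← hu]
          exact hL
      · intro i i0 i1 i2
        omega
    · -- move right
      have hS : SZ N L Ci Co (u + 1) v := cutR (ok_of G) hL c1 c2
      have hw : (r * u + r) / (r : ℤ) = u + 1 := by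
        apply dv hr'
        · have : (r : ℤ) * (u + 1) = r * u + r := by ring
          omega
        · have : (r : ℤ) * (u + 1) = r * u + r := by ring
          omega
      have hm := gh G y x (r * u + r - x).toNat ?_ ?_
      · have e1 : x + ((r * u + r - x).toNat : ℤ) = r * u + r := by omega
        rw [e1] at hm
        have hf := fineS G (r * u + r) y (by rw [hw, ← hv]; exact hS)
        rcases hf with hf | hf
        · exact Or.inl (hm.tr hf)
        · exact Or.inr (hm.tr hf)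
      · intro i i0 i1
        rcases eq_or_lt_of_le (show i ≤ r * u + r - x by omega) with h | h
        · have e : x + i = r * u + r := by omega
          rw [e, hw, ← hv]
          exact hS.1
        · rw [dv (x := x + i) (z := u) hr' (by omega) (by omega), ← hv]
          exact hL
      · intro i i0 i1 i2
        omega
  · exact fineS G x y ⟨hL, by unfold Uc; omega⟩

/-- points of class `1` of the closed region -/
theorem xe1 (G : Geo N L r Ci Co R) {x : ℤ × ℤ} (hx : XE N L r Ci Co x) :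
    ∃ q : ℤ × ℤ, FZ N L Ci Co (q.1 / (r : ℤ)) (q.2 / (r : ℤ)) ∧ q.1 + q.2 + 1 ≠ 0 ∧
    RZ {0} (Clo N L r Ci Co) ∅ x (nf q) := by
  have hr : 0 < r := by have := G.hr; omega
  obtain ⟨e, ⟨he1, he2⟩, hc⟩ := hx
  obtain ⟨hz, ⟨X, Y, rfl, hx⟩ | ⟨X, Y, rfl, hx⟩⟩ := cor1 hc
  · have f1 : FZ N L Ci Co ((X - 1) / (r : ℤ)) (Y / (r : ℤ)) :=
      fz2 G (fun h => he1 (iEP_h hr _ _ (Or.inl h))) (fun h => he2 (iEP_h hr _ _ (Or.inl h)))
    have f2 : FZ N L Ci Co (X / (r : ℤ)) (Y / (r : ℤ)) :=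
      fz2 G (fun h => he1 (iEP_h hr _ _ (Or.inr h))) (fun h => he2 (iEP_h hr _ _ (Or.inr h)))
    have hl : RZ {0} (Clo N L r Ci Co) ∅ (nf (X - 1, Y)) (nf (X, Y)) :=
      Relation.EqvGen.rel _ _ (lz_h X Y ⟨he1, he2⟩ hz)
    by_cases h : X + Y + 1 = 0
    · refine ⟨(X - 1, Y), f1, by simp only; omega, ?_⟩
      rcases hx with rfl | rfl
      · exact Relation.EqvGen.refl _
      · exact Relation.EqvGen.symm _ _ hl
    · refine ⟨(X, Y), f2, h, ?_⟩
      rcases hx with rfl | rfl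
      · exact hl
      · exact Relation.EqvGen.refl _
  · have f1 : FZ N L Ci Co (X / (r : ℤ)) ((Y - 1) / (r : ℤ)) :=
      fz2 G (fun h => he1 (iEP_v hr _ _ (Or.inl h))) (fun h => he2 (iEP_v hr _ _ (Or.inl h)))
    have f2 : FZ N L Ci Co (X / (r : ℤ)) (Y / (r : ℤ)) :=
      fz2 G (fun h => he1 (iEP_v hr _ _ (Or.inr h))) (fun h => he2 (iEP_v hr _ _ (Or.inr h)))
    have hl : RZ {0} (Clo N L r Ci Co) ∅ (nf (X, Y - 1)) (nf (X, Y)) :=
      Relation.EqvGen.rel _ _ (lz_v X Y ⟨he1, he2⟩ hz)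
    by_cases h : X + Y + 1 = 0
    · refine ⟨(X, Y - 1), f1, by simp only; omega, ?_⟩
      rcases hx with rfl | rfl
      · exact Relation.EqvGen.refl _
      · exact Relation.EqvGen.symm _ _ hl
    · refine ⟨(X, Y), f2, h, ?_⟩
      rcases hx with rfl | rfl
      · exact hl
      · exact Relation.EqvGen.refl _

/-- faces next to the inner box are free -/
theorem out1 (G : Geo N L r Ci Co R) (p : Vtx) (hp : OutF N r Ci p) :
    FZ N L Ci Co (p.1 / (r : ℤ)) (p.2 / (r : ℤ)) ∧
      (4 * (r : ℤ) ≤ p.1 + p.2 ∨ p.1 + p.2 ≤ -(4 * r : ℤ) - 1) := by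
  have hr : 0 < r := by have := G.hr; omega
  have hr' : (0 : ℤ) < r := by exact_mod_cast hr
  have hO := ok_of G
  obtain ⟨⟨j1, j2, j3⟩, ⟨k1, k2, k3⟩, k4, k5⟩ := hO
  obtain ⟨x, y⟩ := p
  obtain ⟨ho, hc⟩ := hp
  obtain ⟨a1, a2⟩ := cb hr x
  obtain ⟨b1, b2⟩ := cb hr y
  simp only at ho hc ⊢
  have eNr : (N : ℤ) * r = r * N := by ring
  rw [eNr] at ho
  set u := x / (r : ℤ) with hu
  set v := y / (r : ℤ) with hv
  have hcs : ¬ (u = (csq N Ci).1 ∧ v = (csq N Ci).2) := by
    rintro ⟨h1, h2⟩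
    rw [← h1, ← h2] at hc
    exact hc ⟨a1, a2, b1, b2⟩
  unfold csq at hcs
  -- the square is in the first layer
  have key : ∀ u v : ℤ, (-(N : ℤ) - 1 ≤ u ∧ u ≤ N ∧ -(N : ℤ) - 1 ≤ v ∧ v ≤ N) →
      ¬ (-(N : ℤ) ≤ u ∧ u < N ∧ -(N : ℤ) ≤ v ∧ v < N) → ¬ Sb Ci.1 Ci.2 N u v →
      FZ N L Ci Co u v := by
    intro u v h1 h2 h3
    refine ⟨by omega, h2, ?_, fun h => h3 h.1, ?_⟩
    · unfold Rg; omega
    · unfold Sb; omega
  rcases ho with ⟨h1, h2⟩ | ⟨h1, h2⟩
  · have h3 := (abs_le.1 (show |x| ≤ r * N - 4 * r by omega)).1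
    have h4 := (abs_le.1 (show |x| ≤ r * N - 4 * r by omega)).2
    have u1 : u ≤ N - 4 := mle hr' (by
      have : (r : ℤ) * (N - 4) = r * N - 4 * r := by ring
      omega)
    have u2 : -(N : ℤ) + 4 ≤ u := by
      have : (-(N : ℤ) + 4) < u + 1 := mlt hr' (by
        have e1 : (r : ℤ) * (-(N : ℤ) + 4) = -(r * N) + 4 * r := by ring
        have e2 : (r : ℤ) * (u + 1) = r * u + r := by ring
        omega)
      omega
    rcases h1 with h1 | h1
    · have v1 : v = N := dv hr' (by omega) (by omega)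
      refine ⟨key _ _ (by omega) (by omega) ?_, by omega⟩
      have hcs' : ¬ (Ci.1 = 0 ∧ u = Ci.2) := by
        rintro ⟨g1, g2⟩
        rw [if_pos g1] at hcs
        exact hcs ⟨g2, v1⟩
      clear hcs hc
      unfold Sb
      omega
    · have v1 : v = -(N : ℤ) - 1 := dv hr' (by
        have : (r : ℤ) * (-(N : ℤ) - 1) = -(r * N) - r := by ring
        omega) (by
        have : (r : ℤ) * (-(N : ℤ) - 1) = -(r * N) - r := by ring
        omega)
      refine ⟨key _ _ (by omega) (by omega) ?_, by omega⟩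
      have hcs' : ¬ (Ci.1 = 2 ∧ u = Ci.2) := by
        rintro ⟨g1, g2⟩
        rw [if_neg (by omega), if_neg (by omega), if_pos g1] at hcs
        exact hcs ⟨g2, v1⟩
      clear hcs hc
      unfold Sb
      omega
  · have h3 := (abs_le.1 (show |y| ≤ r * N - 4 * r by omega)).1
    have h4 := (abs_le.1 (show |y| ≤ r * N - 4 * r by omega)).2
    have u1 : v ≤ N - 4 := mle hr' (by
      have : (r : ℤ) * (N - 4) = r * N - 4 * r := by ring
      omega)
    have u2 : -(N : ℤ) + 4 ≤ v := by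
      have : (-(N : ℤ) + 4) < v + 1 := mlt hr' (by
        have e1 : (r : ℤ) * (-(N : ℤ) + 4) = -(r * N) + 4 * r := by ring
        have e2 : (r : ℤ) * (v + 1) = r * v + r := by ring
        omega)
      omega
    rcases h1 with h1 | h1
    · have v1 : u = N := dv hr' (by omega) (by omega)
      refine ⟨key _ _ (by omega) (by omega) ?_, by omega⟩
      have hcs' : ¬ (Ci.1 = 1 ∧ v = Ci.2) := by
        rintro ⟨g1, g2⟩
        rw [if_neg (by omega), if_pos g1] at hcs
        exact hcs ⟨v1, g2⟩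
      clear hcs hc
      unfold Sb
      omega
    · have v1 : u = -(N : ℤ) - 1 := dv hr' (by
        have : (r : ℤ) * (-(N : ℤ) - 1) = -(r * N) - r := by ring
        omega) (by
        have : (r : ℤ) * (-(N : ℤ) - 1) = -(r * N) - r := by ring
        omega)
      refine ⟨key _ _ (by omega) (by omega) ?_, by omega⟩
      have hcs' : ¬ (Ci.1 = 3 ∧ v = Ci.2) := by
        rintro ⟨g1, g2⟩
        rw [if_neg (by omega), if_neg (by omega), if_neg (by omega)] at hcs
        exact hcs ⟨v1, g2⟩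
      clear hcs hc
      unfold Sb
      omega

/-- faces next to the inner box are in the closed region -/
theorem out2 (G : Geo N L r Ci Co R) (p : Vtx) (hp : OutF N r Ci p) :
    XE N L r Ci Co (fp p) := by
  have hr : 0 < r := by have := G.hr; omega
  have hr' : (0 : ℤ) < r := by exact_mod_cast hr
  obtain ⟨h1, h2⟩ := out1 G p hp
  have g1 := fz1 G h1
  have hfp : fp p = nf p := by
    rw [nf_off (Or.inl (by omega))]
    rfl
  obtain ⟨a1, a2⟩ := cb hr p.1
  by_cases hc : p.1 + 1 < r * (p.1 / (r : ℤ)) + r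
  · have hdv : (p.1 + 1) / (r : ℤ) = p.1 / (r : ℤ) := dv hr' (by omega) (by omega)
    refine ⟨(p.1 + 1, p.2, false), ⟨?_, ?_⟩, ?_, ?_⟩
    · apply nEP_h hr
      · rw [add_sub_cancel_right]; exact g1.1
      · rw [hdv]; exact g1.1
    · apply nEP_h hr
      · rw [add_sub_cancel_right]; exact g1.2
      · rw [hdv]; exact g1.2
    · rintro ⟨-, hz⟩
      have : p.1 + 1 + p.2 + 1 = 0 := hz
      omega
    · refine ⟨nf (p.1 + 1, p.2), Or.inl ?_⟩
      have := dg_h (p.1 + 1) p.2
      rw [add_sub_cancel_right] at this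
      rw [hfp]
      exact this
  · have hr4 := G.hr
    have hdv : (p.1 - 1) / (r : ℤ) = p.1 / (r : ℤ) := dv hr' (by omega) (by omega)
    refine ⟨(p.1, p.2, false), ⟨?_, ?_⟩, ?_, ?_⟩
    · apply nEP_h hr
      · rw [hdv]; exact g1.1
      · exact g1.1
    · apply nEP_h hr
      · rw [hdv]; exact g1.2
      · exact g1.2
    · rintro ⟨-, hz⟩
      have : p.1 + p.2 + 1 = 0 := hz
      omega
    · refine ⟨nf (p.1 - 1, p.2), Or.inr ?_⟩
      rw [hfp]
      exact dg_h p.1 p.2

/-- faces inside of the outer circle: position -/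
theorem side (G : Geo N L r Ci Co R) (p : Vtx) (hp : InF r (L * r : ℕ) p) :
    fp p = nf p ∧ ∃ s : ℤ, s = fps (L * r : ℕ) p / (r : ℤ) ∧ 1 ≤ s ∧ s ≤ 8 * (L : ℤ) - 2 ∧
      fr L s = (p.1 / (r : ℤ), p.2 / (r : ℤ)) := by
  have hr : 0 < r := by have := G.hr; omega
  have hr' : (0 : ℤ) < r := by exact_mod_cast hr
  have hO := ok_of G
  obtain ⟨⟨j1, j2, j3⟩, ⟨k1, k2, k3⟩, k4, k5⟩ := hO
  obtain ⟨x, y⟩ := p
  obtain ⟨a1, a2⟩ := cb hr x
  obtain ⟨b1, b2⟩ := cb hr y
  unfold InF at hp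
  unfold fps
  have eLr : ((L * r : ℕ) : ℤ) = r * L := by push_cast; ring
  rw [eLr] at hp ⊢
  simp only at hp ⊢
  set u := x / (r : ℤ) with hu
  set v := y / (r : ℤ) with hv
  have hfp : x + y + 1 ≠ 0 → fp (x, y) = nf (x, y) := by
    intro h
    rw [nf_off (Or.inl h)]
    rfl
  rcases hp with ⟨h1, h2⟩ | ⟨h1, h2⟩
  · have h3 := (abs_le.1 (show |x| ≤ r * L - 4 * r by omega)).1
    have h4 := (abs_le.1 (show |x| ≤ r * L - 4 * r by omega)).2
    have u1 : u ≤ L - 4 := mle hr' (by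
      have : (r : ℤ) * (L - 4) = r * L - 4 * r := by ring
      omega)
    have u2 : -(L : ℤ) + 4 ≤ u := by
      have : (-(L : ℤ) + 4) < u + 1 := mlt hr' (by
        have e1 : (r : ℤ) * (-(L : ℤ) + 4) = -(r * L) + 4 * r := by ring
        have e2 : (r : ℤ) * (u + 1) = r * u + r := by ring
        omega)
      omega
    rcases h1 with h1 | h1
    · -- top
      have v1 : v = L - 1 := dv hr' (by
        have : (r : ℤ) * (L - 1) = r * L - r := by ring
        omega) (by
        have : (r : ℤ) * (L - 1) = r * L - r := by ring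
        omega)
      refine ⟨hfp (by omega), _, rfl, ?_⟩
      rw [if_pos h1]
      have e : (x + r * L) / (r : ℤ) = u + L := dv hr' (by
        have : (r : ℤ) * (u + L) = r * u + r * L := by ring
        omega) (by
        have : (r : ℤ) * (u + L) = r * u + r * L := by ring
        omega)
      rw [e]
      refine ⟨by omega, by omega, ?_⟩
      unfold fr
      rw [if_pos (by omega), v1]
      ext <;> simp only; omega
    · -- bottom
      have v1 : v = -(L : ℤ) := dv hr' (by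
        have : (r : ℤ) * (-(L : ℤ)) = -(r * L) := by ring
        omega) (by
        have : (r : ℤ) * (-(L : ℤ)) = -(r * L) := by ring
        omega)
      refine ⟨hfp (by omega), _, rfl, ?_⟩
      have hrL : 0 < (r : ℤ) * L := by
        apply mul_pos hr'
        omega
      rw [if_neg (by omega), if_neg (by
        have : (0 : ℤ) < r := hr'
        omega), if_pos h1]
      have e : (4 * (r * L) + (r * L - 1 - x)) / (r : ℤ) = 4 * L + (L - 1 - u) := dv hr' (by
        have : (r : ℤ) * (4 * L + (L - 1 - u)) = 4 * (r * L) + (r * L - r - r * u) := by ring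
        omega) (by
        have : (r : ℤ) * (4 * L + (L - 1 - u)) = 4 * (r * L) + (r * L - r - r * u) := by ring
        omega)
      rw [e]
      refine ⟨by omega, by omega, ?_⟩
      unfold fr
      rw [if_neg (by omega), if_neg (by omega), if_pos (by omega), v1]
      ext <;> simp only; omega
  · have h3 := (abs_le.1 (show |y| ≤ r * L - 4 * r by omega)).1
    have h4 := (abs_le.1 (show |y| ≤ r * L - 4 * r by omega)).2
    have u1 : v ≤ L - 4 := mle hr' (by
      have : (r : ℤ) * (L - 4) = r * L - 4 * r := by ring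
      omega)
    have u2 : -(L : ℤ) + 4 ≤ v := by
      have : (-(L : ℤ) + 4) < v + 1 := mlt hr' (by
        have e1 : (r : ℤ) * (-(L : ℤ) + 4) = -(r * L) + 4 * r := by ring
        have e2 : (r : ℤ) * (v + 1) = r * v + r := by ring
        omega)
      omega
    rcases h1 with h1 | h1
    · -- right
      have v1 : u = L - 1 := dv hr' (by
        have : (r : ℤ) * (L - 1) = r * L - r := by ring
        omega) (by
        have : (r : ℤ) * (L - 1) = r * L - r := by ring
        omega)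
      refine ⟨hfp (by omega), _, rfl, ?_⟩
      rw [if_neg (by omega), if_pos h1]
      have e : (2 * (r * L) + (r * L - 1 - y)) / (r : ℤ) = 2 * L + (L - 1 - v) := dv hr' (by
        have : (r : ℤ) * (2 * L + (L - 1 - v)) = 2 * (r * L) + (r * L - r - r * v) := by ring
        omega) (by
        have : (r : ℤ) * (2 * L + (L - 1 - v)) = 2 * (r * L) + (r * L - r - r * v) := by ring
        omega)
      rw [e]
      refine ⟨by omega, by omega, ?_⟩
      unfold fr
      rw [if_neg (by omega), if_pos (by omega), v1]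
      ext <;> simp only; omega
    · -- left
      have v1 : u = -(L : ℤ) := dv hr' (by
        have : (r : ℤ) * (-(L : ℤ)) = -(r * L) := by ring
        omega) (by
        have : (r : ℤ) * (-(L : ℤ)) = -(r * L) := by ring
        omega)
      refine ⟨hfp (by omega), _, rfl, ?_⟩
      have hrL : 0 < (r : ℤ) * L := by
        apply mul_pos hr'
        omega
      rw [if_neg (by omega), if_neg (by omega), if_neg (by omega)]
      have e : (6 * (r * L) + (y + r * L)) / (r : ℤ) = 6 * L + (v + L) := dv hr' (by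
        have : (r : ℤ) * (6 * L + (v + L)) = 6 * (r * L) + (r * v + r * L) := by ring
        omega) (by
        have : (r : ℤ) * (6 * L + (v + L)) = 6 * (r * L) + (r * v + r * L) := by ring
        omega)
      rw [e]
      refine ⟨by omega, by omega, ?_⟩
      unfold fr
      rw [if_neg (by omega), if_neg (by omega), if_neg (by omega), v1]
      ext <;> simp only; omega

theorem cp_eq (L : ℕ) (C : Cel) : cp C.1 C.2 L = cpos L C := rfl

theorem sideA (G : Geo N L r Ci Co R) (p : Vtx) (hp : SdA L r Co p) :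
    RZ {0} (Clo N L r Ci Co) ∅ (fp p) (nf (fA L r)) := by
  have hr : 0 < r := by have := G.hr; omega
  have hr' : (0 : ℤ) < r := by exact_mod_cast hr
  have hO := ok_of G
  obtain ⟨h1, h2⟩ := hp
  obtain ⟨hfp, s, hs, s1, s2, s3⟩ := side G p h1
  have hlt : s < cp Co.1 Co.2 L := by
    rw [cp_eq, hs]
    exact Int.ediv_lt_of_lt_mul hr' h2
  have hS := frO hO s1 s2 hlt.ne
  have hc := oA hO s1 hlt
  rw [s3] at hS hc
  rw [fr1 (by obtain ⟨⟨j1, j2, j3⟩, ⟨k1, k2, k3⟩, k4, k5⟩ := hO; omega)] at hc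
  rw [hfp]
  exact (toRep G p.1 p.2 hS).sy.tr (lift G hc)

theorem sideB (G : Geo N L r Ci Co R) (p : Vtx) (hp : SdB L r Co p) :
    RZ {0} (Clo N L r Ci Co) ∅ (fp p) (nf (fB L r)) := by
  have hr : 0 < r := by have := G.hr; omega
  have hr' : (0 : ℤ) < r := by exact_mod_cast hr
  have hO := ok_of G
  obtain ⟨h1, h2⟩ := hp
  obtain ⟨hfp, s, hs, s1, s2, s3⟩ := side G p h1
  have hlt : cp Co.1 Co.2 L < s := by
    rw [cp_eq, hs]
    have := Int.le_ediv_of_mul_le hr' h2
    omega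
  have hS := frO hO s1 s2 hlt.ne'
  have hc := oB hO s2 hlt
  rw [s3] at hS hc
  rw [fr2 (by obtain ⟨⟨j1, j2, j3⟩, ⟨k1, k2, k3⟩, k4, k5⟩ := hO; omega)] at hc
  rw [hfp]
  exact (toRep G p.1 p.2 hS).sy.tr (lift G hc)

end moves

end TEX

open TEX in
/-- **KI-EX** -/
theorem t_EX : S_z1 → S_z2 → S_z3 → S_EX := by
  intro _ _ _ N L r Ci Co R G
  refine ⟨nf (fA L r), nf (fB L r), ?_, ?_, ?_, ?_⟩
  · intro x hx
    obtain ⟨q, h1, h2, h3⟩ := xe1 G hx
    rcases fineL G q.1 q.2 h1 h2 with h | h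
    · exact Or.inl (Relation.EqvGen.trans _ _ _ h3 h)
    · exact Or.inr (Relation.EqvGen.trans _ _ _ h3 h)
  · exact fun p hp => out2 G p hp
  · exact fun p hp => sideA G p hp
  · exact fun p hp => sideB G p hp

end Pool.Agent.W499.KI
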